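import Pool.Agent.H27.AP.Targets

/-!
Row RC of apr_modules.
-/

set_option autoImplicit false

open Finset Real

namespace Pool.Agent.H27.APR

open Pool.Agent.H27.AP

theorem P_mono {h h' x : ℕ} (hh : h ≤ h') : P h x ≤ P h' x := by
  unfold P
  refine Finset.card_le_card (Finset.filter_subset_filter _ ?_)
  exact Finset.Ioc_subset_Ioc_right (by omega)

theorem logpow (k : ℕ) (s : ℝ) (hs : 0 < s) :
    ∃ C : ℝ, 0 < C ∧ ∀ x : ℝ, 1 ≤ x → Real.log x ^ k ≤ C * x ^ s := by
  have hk : (0 : ℝ) < (k : ℝ) + 1 := by positivity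
  have hε : 0 < s / (k + 1) := by positivity
  refine ⟨((s / (k + 1)) ^ k)⁻¹, by positivity, fun x hx => ?_⟩
  have h1 : Real.log x ≤ x ^ (s / (k + 1)) / (s / (k + 1)) :=
    Real.log_le_rpow_div (by linarith) hε
  have h0 : 0 ≤ Real.log x := Real.log_nonneg hx
  calc Real.log x ^ k ≤ (x ^ (s / (k + 1)) / (s / (k + 1))) ^ k := pow_le_pow_left₀ h0 h1 k
    _ = ((s / (k + 1)) ^ k)⁻¹ * (x ^ (s / (k + 1))) ^ k := by rw [div_pow]; ring
    _ ≤ ((s / (k + 1)) ^ k)⁻¹ * x ^ s := by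
        refine mul_le_mul_of_nonneg_left ?_ (by positivity)
        rw [← Real.rpow_natCast, ← Real.rpow_mul (by linarith)]
        refine Real.rpow_le_rpow_of_exponent_le hx ?_
        rw [div_mul_eq_mul_div, div_le_iff₀ hk]
        nlinarith

theorem single (hUPB : T_UPB) {κ η δ : ℝ} (hκ0 : 0 < κ) (hκ1 : κ < 1 / 8) (hη0 : 0 < η)
    (hη1 : η < 1 / 2) (hδ : δ < 1 / 3)
    (hRI : ∀ θ : ℝ, 0 < θ → θ ≤ δ + η → 1 / ((1 + θ) / 4 - κ) + η ≤ (1 - η) / (1 + η) / θ)
    {N h : ℕ} (hN : 6 ≤ Real.log N) (hh : 2 ≤ h) (h1 : (h : ℝ) ≤ (1 + η) * (N : ℝ) ^ δ) :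
    ∃ E : Finset ℕ, (∀ x < N, ∀ y : ℕ, 2 ≤ y → y ≤ h → (h : ℝ) ≤ (1 + η) * y →
      (1 - η) * (y / Real.log y) ≤ (Nat.primeCounting y : ℝ) →
      Nat.primeCounting y + 1 ≤ P y x → x ∈ E) ∧
      (E.card : ℝ) ≤ (N : ℝ) ^ (1 / 2 : ℝ) + 1 + ((N : ℝ) ^ (1 - 4 * κ) + 4 * π * N / h) *
        ((2 * Real.log N) ^ 24 * Real.log N ^ 2 / η ^ 2) := by
  have hNpos : (0 : ℝ) < N := by
    rcases Nat.eq_zero_or_pos N with h0 | h0
    · subst h0
      norm_num at hN
    · exact_mod_cast h0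
  have hN1 : (1 : ℝ) ≤ N := by
    have : 0 < N := by exact_mod_cast hNpos
    exact_mod_cast this
  set L := Real.log N with hL
  have hLpos : 0 < L := by linarith
  have hhpos : (0 : ℝ) < h := by
    have : (2 : ℝ) ≤ h := by exact_mod_cast hh
    linarith
  have hh2 : (2 : ℝ) ≤ h := by exact_mod_cast hh
  have hlogh : 0 < Real.log h := Real.log_pos (by linarith)
  set θ := Real.log h / L with hθ
  have hθ0 : 0 < θ := by positivity
  have hθL : θ * L = Real.log h := by rw [hθ]; field_simp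
  have hθ1 : θ ≤ δ + η := by
    rw [hθ, div_le_iff₀ hLpos]
    have e1 : Real.log h ≤ Real.log ((1 + η) * (N : ℝ) ^ δ) := Real.log_le_log hhpos h1
    rw [Real.log_mul (by positivity) (by positivity), Real.log_rpow hNpos] at e1
    have e2 : Real.log (1 + η) ≤ η := by
      have := Real.log_le_sub_one_of_pos (show (0 : ℝ) < 1 + η by positivity)
      linarith
    have e3 : η * 1 ≤ η * L := mul_le_mul_of_nonneg_left (by linarith) hη0.le
    rw [add_mul]
    linarith
  have hcpos : 1 / 8 < (1 + θ) / 4 - κ := by linarith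
  have hc2 : (1 + θ) / 4 - κ ≤ 1 / 2 := by linarith
  have hcL1 : 1 / 8 * L ≤ ((1 + θ) / 4 - κ) * L := mul_le_mul_of_nonneg_right hcpos.le hLpos.le
  have hcL2 : ((1 + θ) / 4 - κ) * L ≤ 1 / 2 * L := mul_le_mul_of_nonneg_right hc2 hLpos.le
  set R := Real.exp (((1 + θ) / 4 - κ) * L) with hR
  have hlogR : Real.log R = ((1 + θ) / 4 - κ) * L := by rw [hR, Real.log_exp]
  have hlog2 : Real.log 2 < 0.6931471808 := Real.log_two_lt_d9
  have hR2 : 2 ≤ R := by
    rw [hR, ← Real.exp_log (show (0 : ℝ) < 2 by norm_num)]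
    refine Real.exp_le_exp.2 ?_
    linarith
  have ht : 0 < η * h / L := by positivity
  have hU := hUPB R (η * h / L) N h hR2 ht
  refine ⟨_, ?_, hU.trans ?_⟩
  · intro x hx y hy2 hyh hhy hpi hP
    rw [Finset.mem_filter, Finset.mem_range]
    refine ⟨hx, ?_⟩
    have hy2' : (2 : ℝ) ≤ y := by exact_mod_cast hy2
    have hyh' : (y : ℝ) ≤ h := by exact_mod_cast hyh
    have hly : 0 < Real.log y := Real.log_pos (by linarith)
    have hlyh : Real.log y ≤ Real.log h := Real.log_le_log (by linarith) hyh'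
    have e1 : (h : ℝ) / Real.log R + η * h / L = h / L * (1 / ((1 + θ) / 4 - κ) + η) := by
      rw [hlogR]
      have : (1 + θ) / 4 - κ ≠ 0 := by linarith
      field_simp
    have e2 : (h : ℝ) / L * (1 / ((1 + θ) / 4 - κ) + η) ≤ h / L * ((1 - η) / (1 + η) / θ) :=
      mul_le_mul_of_nonneg_left (hRI θ hθ0 hθ1) (by positivity)
    have e3 : (h : ℝ) / L * ((1 - η) / (1 + η) / θ) = (1 - η) * (h / (1 + η) / Real.log h) := by
      rw [← hθL]
      field_simp
    have e4 : (h : ℝ) / (1 + η) / Real.log h ≤ y / Real.log y := by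
      have : (h : ℝ) / (1 + η) ≤ y := by
        rw [div_le_iff₀ (by linarith)]
        linarith
      calc (h : ℝ) / (1 + η) / Real.log h ≤ y / Real.log h :=
            div_le_div_of_nonneg_right this hlogh.le
        _ ≤ y / Real.log y := div_le_div_of_nonneg_left (by linarith) hly hlyh
    have e5 : (1 - η) * (h / (1 + η) / Real.log h) ≤ (1 - η) * (y / Real.log y) :=
      mul_le_mul_of_nonneg_left e4 (by linarith)
    have e6 : ((Nat.primeCounting y : ℕ) : ℝ) + 1 ≤ (P h x : ℝ) := by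
      have := hP.trans (P_mono (x := x) hyh)
      exact_mod_cast this
    linarith
  · have hRN : R ≤ (N : ℝ) ^ (1 / 2 : ℝ) := by
      rw [Real.rpow_def_of_pos hNpos, hR]
      refine Real.exp_le_exp.2 ?_
      linarith
    have hR4 : R ^ 4 = (N : ℝ) ^ (1 - 4 * κ) * h := by
      have e0 : (h : ℝ) = Real.exp (θ * L) := by rw [hθL, Real.exp_log hhpos]
      rw [Real.rpow_def_of_pos hNpos, hR, ← Real.exp_nat_mul, e0, ← Real.exp_add]
      congr 1
      push_cast
      ring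
    have hlR : 1 + 2 * Real.log R ≤ 2 * L := by
      rw [hlogR]
      linarith
    have hlR0 : 0 ≤ 1 + 2 * Real.log R := by
      rw [hlogR]
      linarith
    have e1 : (R ^ 4 + 4 * π * N) * h * (1 + 2 * Real.log R) ^ 24 / (η * h / L) ^ 2 ≤
        (R ^ 4 + 4 * π * N) * h * (2 * L) ^ 24 / (η * h / L) ^ 2 := by
      refine div_le_div_of_nonneg_right ?_ (by positivity)
      refine mul_le_mul_of_nonneg_left ?_ (by positivity)
      exact pow_le_pow_left₀ hlR0 hlR 24
    have e2 : (R ^ 4 + 4 * π * N) * h * (2 * L) ^ 24 / (η * h / L) ^ 2 =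
        ((N : ℝ) ^ (1 - 4 * κ) + 4 * π * N / h) * ((2 * L) ^ 24 * L ^ 2 / η ^ 2) := by
      rw [hR4]
      field_simp
    rw [e2] at e1
    linarith

theorem pf_RC (hUPB : T_UPB) (hRI : T_RI) (hPIL : T_PIL) : T_RC := by
  intro A δ hδ0 hδ1
  obtain ⟨κ, η, hκ0, hκ1, hη0, hη1, hRI⟩ := hRI δ hδ0 hδ1
  obtain ⟨h₀, hPIL⟩ := hPIL η hη0
  obtain ⟨C1, hC1, hlp1⟩ := logpow (A + 3) (1 / 2) (by norm_num)
  obtain ⟨C2, hC2, hlp2⟩ := logpow (A + 29) (4 * κ) (by positivity)
  set K : ℝ := (h₀ : ℝ) + 6 with hK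
  have hKpos : 0 < K := by positivity
  set c := 1 / Real.log (1 + η) + 1 with hc
  have hlη : 0 < Real.log (1 + η) := Real.log_pos (by linarith)
  have hcpos : 0 < c := by positivity
  set D : ℝ := 2 ^ 24 / η ^ 2 with hD
  have hDpos : 0 < D := by positivity
  refine ⟨K ^ (A + 2) + c * (2 * C1 + D * (C2 + 4 * π)), by positivity, fun N hN => ?_⟩
  have hNpos : (0 : ℝ) < N := by
    have : (2 : ℝ) ≤ N := by exact_mod_cast hN
    linarith
  have hN2 : (2 : ℝ) ≤ N := by exact_mod_cast hN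
  have hN1 : (1 : ℝ) ≤ N := by linarith
  set L := Real.log N with hL
  have hLpos : 0 < L := Real.log_pos (by linarith)
  set S : Set ℕ := {x : ℕ | x < N ∧ ∃ y : ℕ, L ^ (A + 30) < (y : ℝ) ∧ (y : ℝ) ≤ (N : ℝ) ^ δ ∧
    Nat.primeCounting y + 1 ≤ P y x} with hS
  rcases lt_or_ge L K with hLK | hLK
  · -- small N
    have h1 : (S.ncard : ℝ) ≤ N := by
      have : S ⊆ ↑(Finset.range N) := by
        intro x hx
        simp only [Finset.coe_range, Set.mem_Iio]
        exact hx.1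
      have h2 := Set.ncard_le_ncard this (Finset.finite_toSet _)
      rw [Set.ncard_coe_finset, Finset.card_range] at h2
      exact_mod_cast h2
    have h2 : (N : ℝ) ≤ K ^ (A + 2) * (N / L ^ (A + 2)) := by
      rw [mul_div_assoc', le_div_iff₀ (by positivity)]
      have : L ^ (A + 2) ≤ K ^ (A + 2) := pow_le_pow_left₀ hLpos.le hLK.le _
      rw [mul_comm (K ^ (A + 2))]
      exact mul_le_mul_of_nonneg_left this hNpos.le
    have h3 : 0 ≤ c * (2 * C1 + D * (C2 + 4 * π)) * (N / L ^ (A + 2)) := by positivity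
    rw [add_mul]
    linarith
  · have hL6 : 6 ≤ L := by
      have : (0 : ℝ) ≤ h₀ := by positivity
      linarith
    have hL1 : 1 ≤ L := by linarith
    -- the grid
    let g : ℕ → ℕ := fun j => ⌊(1 + η) ^ (j + 1)⌋₊
    let J : Finset ℕ := (Finset.range (⌊L / Real.log (1 + η)⌋₊ + 1)).filter fun j =>
      L ^ (A + 30) < (g j : ℝ) ∧ (g j : ℝ) ≤ (1 + η) * (N : ℝ) ^ δ
    have hg2 : ∀ j ∈ J, 2 ≤ g j := by
      intro j hj
      have h1 := (Finset.mem_filter.1 hj).2.1
      have h2 : L ≤ L ^ (A + 30) := by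
        calc L = L ^ 1 := (pow_one L).symm
          _ ≤ L ^ (A + 30) := pow_le_pow_right₀ hL1 (by omega)
      have h3 : (2 : ℝ) ≤ g j := by linarith
      exact_mod_cast h3
    have hex : ∀ j ∈ J, _ := fun j hj => single hUPB hκ0 hκ1 hη0 hη1 hδ1 hRI hL6 (hg2 j hj)
      (Finset.mem_filter.1 hj).2.2
    choose! E hE1 hE2 using hex
    have hsub : S ⊆ ↑(J.biUnion E) := by
      rintro x ⟨hx, y, hy1, hy2, hy3⟩
      have h2 : L ≤ L ^ (A + 30) := by
        calc L = L ^ 1 := (pow_one L).symm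
          _ ≤ L ^ (A + 30) := pow_le_pow_right₀ hL1 (by omega)
      have hyL : L < y := by linarith
      have hyK : (h₀ : ℝ) + 6 < y := by linarith
      have hy0 : h₀ ≤ y := by
        have : (h₀ : ℝ) ≤ y := by linarith
        exact_mod_cast this
      have hy22 : 2 ≤ y := by
        have h3 : (0 : ℝ) ≤ h₀ := by positivity
        have : (2 : ℝ) ≤ y := by linarith
        exact_mod_cast this
      have hy22' : (2 : ℝ) ≤ y := by exact_mod_cast hy22
      -- choose j
      obtain ⟨j, hj1, hj2⟩ : ∃ j : ℕ, (1 + η) ^ j ≤ (y : ℝ) ∧ (y : ℝ) < (1 + η) ^ (j + 1) :=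
        exists_nat_pow_near (by linarith) (by linarith)
      have hgy : y ≤ g j := Nat.le_floor hj2.le
      have hgy2 : (g j : ℝ) ≤ (1 + η) * y := by
        calc (g j : ℝ) ≤ (1 + η) ^ (j + 1) := Nat.floor_le (by positivity)
          _ = (1 + η) * (1 + η) ^ j := by ring
          _ ≤ (1 + η) * y := mul_le_mul_of_nonneg_left hj1 (by linarith)
      have hgy' : (y : ℝ) ≤ g j := by exact_mod_cast hgy
      have hyN : Real.log y ≤ L := by
        refine Real.log_le_log (by linarith) (hy2.trans ?_)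
        calc (N : ℝ) ^ δ ≤ (N : ℝ) ^ (1 : ℝ) := Real.rpow_le_rpow_of_exponent_le hN1 (by linarith)
          _ = N := Real.rpow_one _
      have hjJ : j ∈ J := by
        refine Finset.mem_filter.2 ⟨?_, by linarith, ?_⟩
        · rw [Finset.mem_range, Nat.lt_succ_iff]
          refine Nat.le_floor ?_
          rw [le_div_iff₀ hlη]
          have : Real.log ((1 + η) ^ j) ≤ Real.log y := Real.log_le_log (by positivity) hj1
          rw [Real.log_pow] at this
          linarith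
        · exact hgy2.trans (mul_le_mul_of_nonneg_left hy2 (by linarith))
      simp only [Finset.coe_biUnion, Set.mem_iUnion]
      exact ⟨j, hjJ, hE1 j hjJ x hx y hy22 hgy hgy2 (hPIL y hy0) hy3⟩
    have hJc : (J.card : ℝ) ≤ c * L := by
      have h1 : J.card ≤ ⌊L / Real.log (1 + η)⌋₊ + 1 := by
        calc J.card ≤ (Finset.range (⌊L / Real.log (1 + η)⌋₊ + 1)).card :=
              Finset.card_filter_le _ _
          _ = _ := Finset.card_range _
      have h2 : (J.card : ℝ) ≤ (⌊L / Real.log (1 + η)⌋₊ : ℝ) + 1 := by exact_mod_cast h1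
      have h3 : (⌊L / Real.log (1 + η)⌋₊ : ℝ) ≤ L / Real.log (1 + η) :=
        Nat.floor_le (by positivity)
      have h4 : c * L = L / Real.log (1 + η) + L := by rw [hc]; ring
      linarith
    -- the bound for each j
    have hLA : 0 < L ^ (A + 2) := by positivity
    have hB : ∀ j ∈ J, ((E j).card : ℝ) ≤ (2 * C1 + D * (C2 + 4 * π)) * (N / L ^ (A + 3)) := by
      intro j hj
      refine (hE2 j hj).trans ?_
      have hgL : L ^ (A + 30) < (g j : ℝ) := (Finset.mem_filter.1 hj).2.1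
      have hLA3 : 0 < L ^ (A + 3) := by positivity
      have hsq : (N : ℝ) ^ (1 / 2 : ℝ) * (N : ℝ) ^ (1 / 2 : ℝ) = N := by
        rw [← Real.rpow_add hNpos]
        norm_num
      have hs1 : 1 ≤ (N : ℝ) ^ (1 / 2 : ℝ) := Real.one_le_rpow hN1 (by norm_num)
      have e1 : (N : ℝ) ^ (1 / 2 : ℝ) ≤ C1 * (N / L ^ (A + 3)) := by
        rw [mul_div_assoc', le_div_iff₀ hLA3]
        have := hlp1 N hN1
        calc (N : ℝ) ^ (1 / 2 : ℝ) * L ^ (A + 3)
            ≤ (N : ℝ) ^ (1 / 2 : ℝ) * (C1 * (N : ℝ) ^ (1 / 2 : ℝ)) :=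
              mul_le_mul_of_nonneg_left this (by positivity)
          _ = C1 * ((N : ℝ) ^ (1 / 2 : ℝ) * (N : ℝ) ^ (1 / 2 : ℝ)) := by ring
          _ = C1 * N := by rw [hsq]
      have e2 : (N : ℝ) ^ (1 - 4 * κ) * L ^ 26 ≤ C2 * (N / L ^ (A + 3)) := by
        rw [mul_div_assoc', le_div_iff₀ hLA3]
        have h1 := hlp2 N hN1
        have h2 : (N : ℝ) ^ (1 - 4 * κ) * (N : ℝ) ^ (4 * κ) = N := by
          rw [← Real.rpow_add hNpos]
          norm_num
        calc (N : ℝ) ^ (1 - 4 * κ) * L ^ 26 * L ^ (A + 3)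
            = (N : ℝ) ^ (1 - 4 * κ) * L ^ (A + 29) := by ring
          _ ≤ (N : ℝ) ^ (1 - 4 * κ) * (C2 * (N : ℝ) ^ (4 * κ)) :=
              mul_le_mul_of_nonneg_left h1 (by positivity)
          _ = C2 * ((N : ℝ) ^ (1 - 4 * κ) * (N : ℝ) ^ (4 * κ)) := by ring
          _ = C2 * N := by rw [h2]
      have e3 : 4 * π * N / (g j : ℝ) * L ^ 26 ≤ 4 * π * (N / L ^ (A + 3)) := by
        have h1 : (N : ℝ) / g j ≤ N / L ^ (A + 30) :=
          div_le_div_of_nonneg_left hNpos.le (by positivity) hgL.le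
        have h2 : (N : ℝ) / L ^ (A + 30) * L ^ 26 ≤ N / L ^ (A + 3) := by
          have : (N : ℝ) / L ^ (A + 30) * L ^ 26 = N / L ^ (A + 4) := by
            rw [show A + 30 = A + 4 + 26 by ring, pow_add L (A + 4) 26]
            field_simp
          rw [this]
          exact div_le_div_of_nonneg_left hNpos.le hLA3
            (pow_le_pow_right₀ hL1 (by omega))
        calc 4 * π * N / (g j : ℝ) * L ^ 26 = 4 * π * ((N : ℝ) / g j * L ^ 26) := by ring
          _ ≤ 4 * π * (N / L ^ (A + 30) * L ^ 26) := by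
              refine mul_le_mul_of_nonneg_left ?_ (by positivity)
              exact mul_le_mul_of_nonneg_right h1 (by positivity)
          _ ≤ 4 * π * (N / L ^ (A + 3)) := mul_le_mul_of_nonneg_left h2 (by positivity)
      have e4 : ((N : ℝ) ^ (1 - 4 * κ) + 4 * π * N / (g j : ℝ)) *
          ((2 * L) ^ 24 * L ^ 2 / η ^ 2) =
          D * ((N : ℝ) ^ (1 - 4 * κ) * L ^ 26 + 4 * π * N / (g j : ℝ) * L ^ 26) := by
        rw [hD]
        ring
      rw [e4]
      have e5 : D * ((N : ℝ) ^ (1 - 4 * κ) * L ^ 26 + 4 * π * N / (g j : ℝ) * L ^ 26) ≤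
          D * (C2 * (N / L ^ (A + 3)) + 4 * π * (N / L ^ (A + 3))) :=
        mul_le_mul_of_nonneg_left (by linarith) hDpos.le
      have e6 : (2 * C1 + D * (C2 + 4 * π)) * (N / L ^ (A + 3)) =
          2 * (C1 * (N / L ^ (A + 3))) +
          D * (C2 * (N / L ^ (A + 3)) + 4 * π * (N / L ^ (A + 3))) := by ring
      rw [e6]
      linarith
    have h1 : (S.ncard : ℝ) ≤ ((J.biUnion E).card : ℝ) := by
      have := Set.ncard_le_ncard hsub (Finset.finite_toSet _)
      rw [Set.ncard_coe_finset] at this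
      exact_mod_cast this
    have h2 : ((J.biUnion E).card : ℝ) ≤ ∑ j ∈ J, ((E j).card : ℝ) := by
      exact_mod_cast Finset.card_biUnion_le
    have h3 : ∑ j ∈ J, ((E j).card : ℝ) ≤
        (J.card : ℝ) * ((2 * C1 + D * (C2 + 4 * π)) * (N / L ^ (A + 3))) := by
      have := Finset.sum_le_card_nsmul J (fun j => ((E j).card : ℝ)) _ hB
      rwa [nsmul_eq_mul] at this
    have h4 : (J.card : ℝ) * ((2 * C1 + D * (C2 + 4 * π)) * (N / L ^ (A + 3))) ≤
        c * L * ((2 * C1 + D * (C2 + 4 * π)) * (N / L ^ (A + 3))) :=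
      mul_le_mul_of_nonneg_right hJc (by positivity)
    have h5 : c * L * ((2 * C1 + D * (C2 + 4 * π)) * (N / L ^ (A + 3))) =
        c * (2 * C1 + D * (C2 + 4 * π)) * (N / L ^ (A + 2)) := by
      rw [show A + 3 = A + 2 + 1 by ring, pow_succ L (A + 2)]
      field_simp
    have h6 : 0 ≤ K ^ (A + 2) * (N / L ^ (A + 2)) := by positivity
    rw [add_mul]
    linarith

end Pool.Agent.H27.APR
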