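import Pool.Agent.H27.AP.Targets

/-!
Row RI of apr_modules.
-/

set_option autoImplicit false

open Finset Real

namespace Pool.Agent.H27.APR

open Pool.Agent.H27.AP

theorem pf_RI : T_RI := by
  intro δ hδ0 hδ1
  obtain ⟨s, hs⟩ : ∃ s : ℝ, s = (1 / 3 - δ) / 4 := ⟨_, rfl⟩
  have hs0 : 0 < s := by linarith
  have hs1 : s < 1 / 12 := by linarith
  refine ⟨s, s, hs0, by linarith, hs0, by linarith, fun θ hθ0 hθ1 => ?_⟩
  have hθ2 : θ ≤ 1 / 3 - 3 * s := by linarith
  have hsθ : s * θ ≤ s * (1 / 3) := mul_le_mul_of_nonneg_left (by linarith) hs0.le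
  have hs2 : 0 ≤ s * s := by positivity
  have h1 : 1 / ((1 + θ) / 4 - s) ≤ (1 - 3 * s) / θ := by
    rw [div_le_div_iff₀ (by linarith) hθ0]
    nlinarith
  have h2 : s ≤ s / θ := by
    rw [le_div_iff₀ hθ0]
    nlinarith
  have h3 : (1 - 3 * s) / θ + s / θ ≤ (1 - s) / (1 + s) / θ := by
    rw [← add_div]
    refine div_le_div_of_nonneg_right ?_ hθ0.le
    rw [le_div_iff₀ (by linarith)]
    nlinarith
  linarith

end Pool.Agent.H27.APR
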