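import Pool.Agent.H27.AP.Targets

/-!
Row SEL of apr_modules.
-/

set_option autoImplicit false

open Finset Real

namespace Pool.Agent.H27.APR

open Pool.Agent.H27.AP

/-- the weights on the least common multiples -/
noncomputable def wl (B : Finset ℕ) (ρ : ℕ → ℝ) (m : ℕ) : ℝ :=
  ∑ u ∈ B, ∑ v ∈ B, if Nat.lcm u v = m then ρ u * ρ v else 0

theorem wl_sum (B : Finset ℕ) (ρ f : ℕ → ℝ) (D : ℕ)
    (hB : ∀ u ∈ B, ∀ v ∈ B, Nat.lcm u v ∈ Icc 1 D) :
    ∑ m ∈ Icc 1 D, wl B ρ m * f m = ∑ u ∈ B, ∑ v ∈ B, ρ u * ρ v * f (Nat.lcm u v) := by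
  unfold wl
  calc ∑ m ∈ Icc 1 D, (∑ u ∈ B, ∑ v ∈ B, if Nat.lcm u v = m then ρ u * ρ v else 0) * f m
      = ∑ m ∈ Icc 1 D, ∑ u ∈ B, ∑ v ∈ B,
          (if Nat.lcm u v = m then ρ u * ρ v * f m else 0) := by
        refine sum_congr rfl fun m _ => ?_
        rw [sum_mul]
        refine sum_congr rfl fun u _ => ?_
        rw [sum_mul]
        refine sum_congr rfl fun v _ => ?_
        rw [ite_mul, zero_mul]
    _ = ∑ u ∈ B, ∑ m ∈ Icc 1 D, ∑ v ∈ B,
          (if Nat.lcm u v = m then ρ u * ρ v * f m else 0) := sum_comm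
    _ = ∑ u ∈ B, ∑ v ∈ B, ∑ m ∈ Icc 1 D,
          (if Nat.lcm u v = m then ρ u * ρ v * f m else 0) :=
        sum_congr rfl fun u _ => sum_comm
    _ = _ := by
        refine sum_congr rfl fun u hu => sum_congr rfl fun v hv => ?_
        rw [sum_ite_eq, if_pos (hB u hu v hv)]

theorem wl_abs (B : Finset ℕ) (ρ : ℕ → ℝ) (hρ : ∀ u, |ρ u| ≤ 1) (hB : ∀ u ∈ B, 1 ≤ u) (m : ℕ) :
    |wl B ρ m| ≤ (m.divisors.card : ℝ) ^ 2 := by
  unfold wl
  have h1 : ∀ u ∈ B, ∀ v ∈ B, |if Nat.lcm u v = m then ρ u * ρ v else 0| ≤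
      (if u ∈ m.divisors then (1 : ℝ) else 0) * (if v ∈ m.divisors then (1 : ℝ) else 0) := by
    intro u hu v hv
    by_cases h : Nat.lcm u v = m
    · have hm : m ≠ 0 := by
        rw [← h]
        exact Nat.lcm_ne_zero (by have := hB u hu; omega) (by have := hB v hv; omega)
      have hu' : u ∈ m.divisors := Nat.mem_divisors.2 ⟨h ▸ Nat.dvd_lcm_left u v, hm⟩
      have hv' : v ∈ m.divisors := Nat.mem_divisors.2 ⟨h ▸ Nat.dvd_lcm_right u v, hm⟩
      rw [if_pos h, if_pos hu', if_pos hv', abs_mul]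
      have := mul_le_mul (hρ u) (hρ v) (abs_nonneg _) zero_le_one
      linarith
    · rw [if_neg h, abs_zero]
      positivity
  calc |∑ u ∈ B, ∑ v ∈ B, if Nat.lcm u v = m then ρ u * ρ v else 0|
      ≤ ∑ u ∈ B, |∑ v ∈ B, if Nat.lcm u v = m then ρ u * ρ v else 0| := abs_sum_le_sum_abs _ _
    _ ≤ ∑ u ∈ B, ∑ v ∈ B, |if Nat.lcm u v = m then ρ u * ρ v else 0| :=
        sum_le_sum fun u _ => abs_sum_le_sum_abs _ _
    _ ≤ ∑ u ∈ B, ∑ v ∈ B,
        (if u ∈ m.divisors then (1 : ℝ) else 0) * (if v ∈ m.divisors then (1 : ℝ) else 0) :=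
        sum_le_sum fun u hu => sum_le_sum fun v hv => h1 u hu v hv
    _ = (∑ u ∈ B, if u ∈ m.divisors then (1 : ℝ) else 0) ^ 2 := by
        rw [sq, sum_mul_sum]
    _ ≤ (m.divisors.card : ℝ) ^ 2 := by
        have h2 : (∑ u ∈ B, if u ∈ m.divisors then (1 : ℝ) else 0) ≤ m.divisors.card := by
          rw [sum_ite_mem, sum_const, nsmul_eq_mul, mul_one]
          exact_mod_cast card_le_card inter_subset_right
        have h3 : (0 : ℝ) ≤ ∑ u ∈ B, if u ∈ m.divisors then (1 : ℝ) else 0 :=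
          sum_nonneg fun u _ => by positivity
        exact pow_le_pow_left₀ h3 h2 2

theorem wl_sw (B : Finset ℕ) (ρ : ℕ → ℝ) (D n : ℕ)
    (hB : ∀ u ∈ B, ∀ v ∈ B, Nat.lcm u v ∈ Icc 1 D) :
    sw (wl B ρ) D n = (∑ u ∈ B, if u ∣ n then ρ u else 0) ^ 2 := by
  unfold sw
  calc ∑ m ∈ Icc 1 D, (if m ∣ n then wl B ρ m else 0)
      = ∑ m ∈ Icc 1 D, wl B ρ m * (if m ∣ n then (1 : ℝ) else 0) := by
        refine sum_congr rfl fun m _ => ?_
        rw [mul_ite, mul_one, mul_zero]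
    _ = ∑ u ∈ B, ∑ v ∈ B, ρ u * ρ v * (if Nat.lcm u v ∣ n then (1 : ℝ) else 0) :=
        wl_sum B ρ (fun m => if m ∣ n then (1 : ℝ) else 0) D hB
    _ = ∑ u ∈ B, ∑ v ∈ B, (if u ∣ n then ρ u else 0) * (if v ∣ n then ρ v else 0) := by
        refine sum_congr rfl fun u _ => sum_congr rfl fun v _ => ?_
        by_cases hu : u ∣ n
        · by_cases hv : v ∣ n
          · rw [if_pos hu, if_pos hv, if_pos (Nat.lcm_dvd hu hv), mul_one]
          · rw [if_pos hu, if_neg hv, if_neg fun h => hv ((Nat.dvd_lcm_right u v).trans h),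
              mul_zero, mul_zero]
        · rw [if_neg hu, if_neg fun h => hu ((Nat.dvd_lcm_left u v).trans h), mul_zero, zero_mul]
    _ = _ := by rw [sq, sum_mul_sum]

theorem pf_SEL (hRH : Pool.Agent.H31.MP.T_RH) : T_SEL := by
  intro R hR
  obtain ⟨ρ, hρ1, hρb, hρs, hQ0, hQ⟩ := hRH 1 R le_rfl (by linarith)
  have hlR : 0 < Real.log R := Real.log_pos (by linarith)
  have hMe : Pool.Agent.H31.MP.Me 1 = 1 := by
    unfold Pool.Agent.H31.MP.Me
    rw [Nat.floor_one]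
    refine prod_eq_one fun q hq => ?_
    rw [mem_filter, mem_Icc] at hq
    have := hq.2.two_le
    omega
  rw [hMe, one_mul] at hQ
  set B := Pool.Agent.H31.MP.RS 1 R with hBdef
  have hBmem : ∀ u ∈ B, 1 ≤ u ∧ (u : ℝ) ≤ R := by
    intro u hu
    rw [hBdef] at hu
    unfold Pool.Agent.H31.MP.RS at hu
    simp only [mem_filter, mem_Icc] at hu
    exact ⟨hu.1.1, (Nat.le_floor_iff (by linarith)).1 hu.1.2⟩
  have hB : ∀ u ∈ B, ∀ v ∈ B, Nat.lcm u v ∈ Icc 1 ⌊R ^ 2⌋₊ := by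
    intro u hu v hv
    obtain ⟨hu1, hu2⟩ := hBmem u hu
    obtain ⟨hv1, hv2⟩ := hBmem v hv
    rw [mem_Icc]
    refine ⟨Nat.one_le_iff_ne_zero.2 (Nat.lcm_ne_zero (by omega) (by omega)), Nat.le_floor ?_⟩
    have h1 : Nat.lcm u v ≤ u * v := Nat.le_of_dvd (by positivity) (Nat.lcm_dvd_mul u v)
    have h2 : ((Nat.lcm u v : ℕ) : ℝ) ≤ (u : ℝ) * v := by exact_mod_cast h1
    have h3 : (u : ℝ) * v ≤ R * R := mul_le_mul hu2 hv2 (by positivity) (by linarith)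
    calc ((Nat.lcm u v : ℕ) : ℝ) ≤ R * R := h2.trans h3
      _ = R ^ 2 := by ring
  have h1B : 1 ∈ B := by
    rw [hBdef]
    unfold Pool.Agent.H31.MP.RS
    simp only [mem_filter, mem_Icc]
    refine ⟨⟨le_rfl, Nat.le_floor (by push_cast; linarith)⟩, squarefree_one, ?_⟩
    intro q hq hq1
    exact absurd (Nat.dvd_one.1 hq1) hq.one_lt.ne'
  refine ⟨wl B ρ, wl_abs B ρ hρb fun u hu => (hBmem u hu).1, ?_, ?_, ?_⟩
  · intro n _
    rw [wl_sw B ρ _ n hB]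
    exact sq_nonneg _
  · intro n hn hRn
    rw [wl_sw B ρ _ n hB]
    have h1 : (∑ u ∈ B, if u ∣ n then ρ u else 0) = 1 := by
      rw [sum_eq_single_of_mem 1 h1B, if_pos (one_dvd n), hρ1]
      intro u hu hu1
      rw [if_neg]
      intro hun
      rcases (Nat.dvd_prime hn).1 hun with h | h
      · exact hu1 h
      · have := (hBmem u hu).2
        rw [h] at this
        linarith
    rw [h1]
    norm_num
  · have h1 : cq (wl B ρ) ⌊R ^ 2⌋₊ 1 = Pool.Agent.H31.MP.QF1 1 R ρ := by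
      unfold cq Pool.Agent.H31.MP.QF1
      rw [filter_true_of_mem fun m _ => one_dvd m]
      have := wl_sum B ρ (fun m => 1 / (m : ℝ)) ⌊R ^ 2⌋₊ hB
      simp only [mul_one_div] at this
      exact this
    rw [h1, le_div_iff₀ hlR]
    exact hQ

end Pool.Agent.H27.APR
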