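import Pool.Agent.H27.AP.Targets

/-!
Row UPB of apr_modules.
-/

set_option autoImplicit false

open Finset Real

namespace Pool.Agent.H27.APR

open Pool.Agent.H27.AP

theorem pf_UPB (hSEL : T_SEL) (hVAR : T_VAR) : T_UPB := by
  intro R t N h hR ht
  obtain ⟨w, hw1, hw2, hw3, hw4⟩ := hSEL R hR
  have hlR : 0 < Real.log R := Real.log_pos (by linarith)
  have hR2 : (4 : ℝ) ≤ R ^ 2 := by nlinarith
  set D := ⌊R ^ 2⌋₊ with hD
  have hD1 : 1 ≤ D := Nat.le_floor (by push_cast; linarith)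
  have hD1' : (1 : ℝ) ≤ D := by exact_mod_cast hD1
  have hDR : (D : ℝ) ≤ R ^ 2 := Nat.floor_le (by positivity)
  have hlD : Real.log D ≤ 2 * Real.log R := by
    have := Real.log_le_log (by linarith) hDR
    rwa [Real.log_pow] at this
  have hlD0 : 0 ≤ Real.log D := Real.log_nonneg hD1'
  have hV := hVAR w D N h hD1 hw1
  set F := (range N).filter fun x => (h : ℝ) / Real.log R + t < P h x with hF
  set F1 := (range N).filter fun x : ℕ => (x : ℝ) < R with hF1
  set F2 := (range N).filter fun x : ℕ => R ≤ (x : ℝ) ∧ (h : ℝ) / Real.log R + t < P h x with hF2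
  have hsub : F ⊆ F1 ∪ F2 := by
    intro x hx
    rw [hF, mem_filter] at hx
    rw [mem_union, hF1, hF2, mem_filter, mem_filter]
    rcases lt_or_ge (x : ℝ) R with h1 | h1
    · exact Or.inl ⟨hx.1, h1⟩
    · exact Or.inr ⟨hx.1, h1, hx.2⟩
  have hc1 : (F1.card : ℝ) ≤ R + 1 := by
    have h1 : F1 ⊆ range (⌊R⌋₊ + 1) := by
      intro x hx
      rw [hF1, mem_filter] at hx
      rw [mem_range, Nat.lt_succ_iff]
      exact Nat.le_floor hx.2.le
    have h2 := card_le_card h1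
    rw [card_range] at h2
    have h3 : (⌊R⌋₊ : ℝ) ≤ R := Nat.floor_le (by linarith)
    have h4 : (F1.card : ℝ) ≤ (⌊R⌋₊ : ℝ) + 1 := by exact_mod_cast h2
    linarith
  have hkey : ∀ x ∈ F2, t ^ 2 ≤ (∑ n ∈ Ioc x (x + h), sw w D n - h * cq w D 1) ^ 2 := by
    intro x hx
    rw [hF2, mem_filter] at hx
    obtain ⟨_, hxR, hxP⟩ := hx
    have h1 : (P h x : ℝ) ≤ ∑ n ∈ Ioc x (x + h), sw w D n := by
      calc (P h x : ℝ) = ∑ n ∈ (Ioc x (x + h)).filter Nat.Prime, (1 : ℝ) := by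
            rw [sum_const, nsmul_eq_mul, mul_one]
            rfl
        _ ≤ ∑ n ∈ (Ioc x (x + h)).filter Nat.Prime, sw w D n := by
            refine sum_le_sum fun n hn => ?_
            rw [mem_filter, mem_Ioc] at hn
            refine hw3 n hn.2 (lt_of_le_of_lt hxR ?_)
            exact_mod_cast hn.1.1
        _ ≤ ∑ n ∈ Ioc x (x + h), sw w D n := by
            refine sum_le_sum_of_subset_of_nonneg (filter_subset _ _) fun n hn _ => ?_
            rw [mem_Ioc] at hn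
            exact hw2 n (by omega)
    have h2 : (h : ℝ) * cq w D 1 ≤ h / Real.log R := by
      have := mul_le_mul_of_nonneg_left hw4 (Nat.cast_nonneg h : (0 : ℝ) ≤ h)
      rwa [mul_one_div] at this
    exact pow_le_pow_left₀ ht.le (by linarith) 2
  have hc2 : (F2.card : ℝ) * t ^ 2 ≤ ((D : ℝ) ^ 2 + 4 * π * N) * h * (1 + Real.log D) ^ 24 := by
    calc (F2.card : ℝ) * t ^ 2 = ∑ _x ∈ F2, t ^ 2 := by rw [sum_const, nsmul_eq_mul]
      _ ≤ ∑ x ∈ F2, (∑ n ∈ Ioc x (x + h), sw w D n - h * cq w D 1) ^ 2 := sum_le_sum hkey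
      _ ≤ ∑ x ∈ range N, (∑ n ∈ Ioc x (x + h), sw w D n - h * cq w D 1) ^ 2 :=
          sum_le_sum_of_subset_of_nonneg (filter_subset _ _) fun x _ _ => sq_nonneg _
      _ ≤ _ := hV
  have hc3 : ((D : ℝ) ^ 2 + 4 * π * N) * h * (1 + Real.log D) ^ 24 ≤
      (R ^ 4 + 4 * π * N) * h * (1 + 2 * Real.log R) ^ 24 := by
    have h1 : (D : ℝ) ^ 2 ≤ R ^ 4 := by
      have := pow_le_pow_left₀ (by linarith) hDR 2
      calc (D : ℝ) ^ 2 ≤ (R ^ 2) ^ 2 := this
        _ = R ^ 4 := by ring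
    have h2 : (1 + Real.log D) ^ 24 ≤ (1 + 2 * Real.log R) ^ 24 :=
      pow_le_pow_left₀ (by linarith) (by linarith) 24
    have h3 : ((D : ℝ) ^ 2 + 4 * π * N) * h ≤ (R ^ 4 + 4 * π * N) * h :=
      mul_le_mul_of_nonneg_right (by linarith) (by positivity)
    exact mul_le_mul h3 h2 (by positivity) (by positivity)
  have hc4 : (F2.card : ℝ) ≤ (R ^ 4 + 4 * π * N) * h * (1 + 2 * Real.log R) ^ 24 / t ^ 2 := by
    rw [le_div_iff₀ (by positivity)]
    exact hc2.trans hc3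
  have hc5 : (F.card : ℝ) ≤ F1.card + F2.card := by
    exact_mod_cast (card_le_card hsub).trans (card_union_le _ _)
  linarith

end Pool.Agent.H27.APR
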