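import Pool.Agent.H27.AP.Targets

/-!
Row VAR of apr_modules.
-/

set_option autoImplicit false

open Finset Real

namespace Pool.Agent.H27.APR

open Pool.Agent.H27.AP

theorem sum_Ioc_shift {M : Type*} [AddCommMonoid M] (f : ℕ → M) (x h : ℕ) :
    ∑ n ∈ Ioc x (x + h), f n = ∑ i ∈ Icc 1 h, f (x + i) := by
  refine Finset.sum_nbij' (fun n => n - x) (fun i => x + i) ?_ ?_ ?_ ?_ ?_
  · intro n hn
    rw [mem_Ioc] at hn
    rw [mem_Icc]
    omega
  · intro i hi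
    rw [mem_Icc] at hi
    rw [mem_Ioc]
    omega
  · intro n hn
    rw [mem_Ioc] at hn
    show x + (n - x) = n
    omega
  · intro i _
    show x + i - x = i
    omega
  · intro n hn
    rw [mem_Ioc] at hn
    show f n = f (x + (n - x))
    rw [show x + (n - x) = n by omega]

theorem ee_add (r q x i : ℕ) : ee r q (x + i) = ee r q i * ee r q x := by
  unfold ee
  rw [← Complex.exp_add]
  congr 1
  push_cast
  ring

theorem Rd_one : Rd 1 = {0} := by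
  unfold Rd
  rfl

theorem ee_zero_one (n : ℕ) : ee 0 1 n = 1 := by
  unfold ee
  simp

theorem expand (hRAM : T_RAM) (w : ℕ → ℝ) (D h x : ℕ) (hD : 1 ≤ D) :
    ((∑ n ∈ Ioc x (x + h), sw w D n - h * cq w D 1 : ℝ) : ℂ) =
      ∑ q ∈ Icc 2 D, ∑ r ∈ Rd q, ((cq w D q : ℂ) * ∑ i ∈ Icc 1 h, ee r q i) * ee r q x := by
  have h1 : ((∑ n ∈ Ioc x (x + h), sw w D n : ℝ) : ℂ) =
      ∑ q ∈ Icc 1 D, ∑ r ∈ Rd q, ((cq w D q : ℂ) * ∑ i ∈ Icc 1 h, ee r q i) * ee r q x := by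
    rw [sum_Ioc_shift, Complex.ofReal_sum]
    calc ∑ i ∈ Icc 1 h, ((sw w D (x + i) : ℝ) : ℂ)
        = ∑ i ∈ Icc 1 h, ∑ q ∈ Icc 1 D, (cq w D q : ℂ) * ∑ r ∈ Rd q, ee r q (x + i) :=
          sum_congr rfl fun i _ => hRAM w D (x + i)
      _ = ∑ q ∈ Icc 1 D, ∑ i ∈ Icc 1 h, (cq w D q : ℂ) * ∑ r ∈ Rd q, ee r q (x + i) :=
          sum_comm
      _ = _ := by
          refine sum_congr rfl fun q _ => ?_
          rw [← mul_sum, sum_comm, mul_sum]
          refine sum_congr rfl fun r _ => ?_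
          rw [mul_assoc, sum_mul]
          refine congrArg _ (sum_congr rfl fun i _ => ee_add r q x i)
  rw [← Finset.insert_Icc_add_one_left_eq_Icc hD, sum_insert (by simp)] at h1
  rw [Rd_one, sum_singleton] at h1
  simp only [ee_zero_one, sum_const, Nat.card_Icc, mul_one] at h1
  push_cast at h1 ⊢
  rw [h1]
  simp
  ring

theorem pf_VAR (hDLS : T_DLS) (hRAM : T_RAM) (hFSQ : T_FSQ) (hCQ : T_CQ) : T_VAR := by
  intro w D N h hD hw
  have h1 : ∑ x ∈ range N, (∑ n ∈ Ioc x (x + h), sw w D n - h * cq w D 1) ^ 2 =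
      ∑ x ∈ range N, ‖∑ q ∈ Icc 2 D, ∑ r ∈ Rd q,
        ((cq w D q : ℂ) * ∑ i ∈ Icc 1 h, ee r q i) * ee r q x‖ ^ 2 := by
    refine sum_congr rfl fun x _ => ?_
    rw [← expand hRAM w D h x hD, Complex.norm_real, Real.norm_eq_abs, sq_abs]
  rw [h1]
  refine (hDLS D N (fun q r => (cq w D q : ℂ) * ∑ i ∈ Icc 1 h, ee r q i) hD).trans ?_
  have hpos : (0 : ℝ) ≤ (D : ℝ) ^ 2 + 4 * π * N := by positivity
  rw [mul_assoc ((D : ℝ) ^ 2 + 4 * π * N) (h : ℝ)]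
  refine mul_le_mul_of_nonneg_left ?_ hpos
  calc ∑ q ∈ Icc 2 D, ∑ r ∈ Rd q, ‖(cq w D q : ℂ) * ∑ i ∈ Icc 1 h, ee r q i‖ ^ 2
      = ∑ q ∈ Icc 2 D, cq w D q ^ 2 * ∑ r ∈ Rd q, ‖∑ i ∈ Icc 1 h, ee r q i‖ ^ 2 := by
        refine sum_congr rfl fun q _ => ?_
        rw [mul_sum]
        refine sum_congr rfl fun r _ => ?_
        rw [norm_mul, mul_pow, Complex.norm_real, Real.norm_eq_abs, sq_abs]
    _ ≤ ∑ q ∈ Icc 2 D, cq w D q ^ 2 * ((q : ℝ) * h) := by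
        refine sum_le_sum fun q hq => ?_
        rw [mem_Icc] at hq
        exact mul_le_mul_of_nonneg_left (hFSQ q h hq.1) (sq_nonneg _)
    _ ≤ ∑ q ∈ Icc 1 D, cq w D q ^ 2 * ((q : ℝ) * h) := by
        refine sum_le_sum_of_subset_of_nonneg (Icc_subset_Icc_left (by norm_num))
          fun q _ _ => by positivity
    _ = h * ∑ q ∈ Icc 1 D, cq w D q ^ 2 * q := by
        rw [mul_sum]
        refine sum_congr rfl fun q _ => ?_
        ring
    _ ≤ h * (1 + Real.log D) ^ 24 := mul_le_mul_of_nonneg_left (hCQ w D hD hw) (by positivity)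

end Pool.Agent.H27.APR
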